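import Mathlib

/-!
# Property `R_∞` for a class of Artin groups of arbitrary rank
-/

namespace Pool.Agent.Results.MP_b326e6_al.ModThreeTwoComponents

open scoped ComplexConjugate

/-- the alternating word `a b a ...` with `n` letters, starting with `a` -/
def alt {G : Type*} [Monoid G] : ℕ → G → G → G
  | 0, _, _ => 1
  | n + 1, a, b => a * alt n b a

/-- the Artin relations `s t s ... = t s t ...` (`M s t` letters on each side). As in Mathlib, the
value `M s t = 0` of a Coxeter matrix stands for `∞`; the corresponding relation is trivial. -/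
def artinRels {S : Type*} (M : CoxeterMatrix S) : Set (FreeGroup S) :=
  {r | ∃ s t : S, r = alt (M s t) (FreeGroup.of s) (FreeGroup.of t) *
    (alt (M s t) (FreeGroup.of t) (FreeGroup.of s))⁻¹}

/-- the Artin group of a Coxeter matrix -/
abbrev ArtinGroup {S : Type*} (M : CoxeterMatrix S) : Type _ := PresentedGroup (artinRels M)

/-- `y = g x φ(g)⁻¹` for some `g` -/
def TwistedConj {G : Type*} [Group G] (φ : G ≃* G) (x y : G) : Prop :=
  ∃ g : G, y = g * x * (φ g)⁻¹

/-- property `R_∞`: every automorphism has infinitely many twisted conjugacy classes -/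
def HasRInf (G : Type*) [Group G] : Prop :=
  ∀ φ : G ≃* G, Infinite (Quot (TwistedConj φ))

/-- `s` and `t` are joined when `m_{st}` is odd -/
def oddGraph {S : Type*} (M : CoxeterMatrix S) : SimpleGraph S where
  Adj s t := s ≠ t ∧ Odd (M s t)
  symm := ⟨fun s t h => ⟨h.1.symm, by rw [M.symmetric]; exact h.2⟩⟩
  loopless := ⟨fun s h => h.1 rfl⟩

/-- `s` and `t` are joined when `m_{st}` is finite and not divisible by `3` -/
def nonThreeGraph {S : Type*} (M : CoxeterMatrix S) : SimpleGraph S where
  Adj s t := s ≠ t ∧ M s t ≠ 0 ∧ ¬ 3 ∣ M s t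
  symm := ⟨fun s t h => ⟨h.1.symm, by rw [M.symmetric]; exact h.2⟩⟩
  loopless := ⟨fun s h => h.1 rfl⟩

/-! ### Invariants -/

lemma infinite_quot {A : Type*} (r : A → A → Prop) (f : A → ℝ)
    (hf : ∀ x y, r x y → f x = f y) (hunb : ∀ K : ℝ, ∃ x, K < f x) : Infinite (Quot r) := by
  by_contra hfin
  rw [not_infinite_iff_finite] at hfin
  have h1 : (Set.range (Quot.lift f hf)).Finite := Set.finite_range _
  obtain ⟨K, hK⟩ := h1.bddAbove
  obtain ⟨x, hx⟩ := hunb K
  exact absurd (hK ⟨Quot.mk r x, rfl⟩) (not_le.2 hx)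

/-! ### Crossed homomorphisms -/

lemma map_alt {G H : Type*} [Group G] [Group H] (f : G →* H) (n : ℕ) (a b : G) :
    f (alt n a b) = alt n (f a) (f b) := by
  induction n generalizing a b with
  | zero => simp [alt]
  | succ n ih => simp [alt, ih]

lemma crossed_alt {G : Type*} [Group G] (D l : G → ℂ) (hD : ∀ g h, D (g * h) = D g + l g * D h)
    (z : ℂ) (n : ℕ) (u v : G) (hu : l u = z) (hv : l v = z) :
    (1 + z) * (D (alt n u v) - D (alt n v u)) = (D u - D v) * (1 - (-z) ^ n) := by
  induction n generalizing u v with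
  | zero => simp [alt]
  | succ n ih =>
    have h := ih v u hv hu
    simp only [alt]
    rw [hD, hD, hu, hv, pow_succ]
    linear_combination z * h

/-! ### The sixth root of unity -/

/-- `exp(iπ/3)` -/
noncomputable def w : ℂ := ⟨1 / 2, Real.sqrt 3 / 2⟩

lemma sqrt3 : Real.sqrt 3 * Real.sqrt 3 = 3 := Real.mul_self_sqrt (by norm_num)

lemma w_sq : w ^ 2 = w - 1 := by
  apply Complex.ext
  · simp only [w, pow_two, Complex.mul_re, Complex.sub_re, Complex.one_re]
    nlinarith [sqrt3]
  · simp only [w, pow_two, Complex.mul_im, Complex.sub_im, Complex.one_im]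
    ring

lemma w_conj : conj w = 1 - w := by
  apply Complex.ext
  · simp only [w, Complex.conj_re, Complex.sub_re, Complex.one_re]
    norm_num
  · simp only [w, Complex.conj_im, Complex.sub_im, Complex.one_im]
    ring

lemma w_mul_conj : w * conj w = 1 := by
  rw [w_conj]
  linear_combination -w_sq

lemma w_ne : w ≠ 0 := by
  intro h
  have := w_mul_conj
  rw [h] at this
  simp at this

lemma w_inv : w⁻¹ = conj w := inv_eq_of_mul_eq_one_right w_mul_conj

lemma w_im : w.im ≠ 0 := by
  have h : (0 : ℝ) < Real.sqrt 3 := Real.sqrt_pos.2 (by norm_num)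
  simp only [w]
  positivity

lemma w_sub_conj : w - conj w ≠ 0 := by
  intro h
  have h1 := congrArg Complex.im h
  simp only [Complex.sub_im, Complex.conj_im, Complex.zero_im] at h1
  exact w_im (by linarith)

lemma one_add_w : 1 + w ≠ 0 := by
  intro h
  have h1 := congrArg Complex.im h
  simp only [Complex.add_im, Complex.one_im, Complex.zero_im, zero_add] at h1
  exact w_im h1

lemma one_sub_w : 1 - w ≠ 0 := by
  intro h
  have h1 := congrArg Complex.im h
  simp only [Complex.sub_im, Complex.one_im, Complex.zero_im, zero_sub] at h1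
  exact w_im (by linarith)

lemma neg_w_cube : (-w) ^ 3 = 1 := by
  linear_combination (-w - 1) * w_sq

lemma neg_w_pow {n : ℕ} (h : (-w) ^ n = 1) : 3 ∣ n := by
  have h1 : orderOf (-w) = 3 := by
    have : Fact (Nat.Prime 3) := ⟨by norm_num⟩
    apply orderOf_eq_prime neg_w_cube
    intro h2
    exact one_add_w (by linear_combination -h2)
  rw [← h1]
  exact orderOf_dvd_of_pow_eq_one h

lemma neg_w_pow' {n : ℕ} (h : 3 ∣ n) : (-w) ^ n = 1 := by
  obtain ⟨k, rfl⟩ := h
  rw [pow_mul, neg_w_cube, one_pow]

lemma w_zpow_conj (k : ℤ) : w ^ k * conj (w ^ k) = 1 := by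
  rw [map_zpow₀, ← mul_zpow, w_mul_conj, one_zpow]

lemma w_zpow_norm (k : ℤ) : ‖w ^ k‖ = 1 := by
  have h := w_zpow_conj k
  rw [Complex.mul_conj] at h
  have h1 : Complex.normSq (w ^ k) = 1 := by exact_mod_cast h
  rw [Complex.normSq_eq_norm_sq] at h1
  have h2 := norm_nonneg (w ^ k)
  nlinarith

/-- Eisenstein integers -/
def Eis (z : ℂ) : Prop := ∃ a b : ℤ, z = a + b * w

lemma Eis.add {x y : ℂ} (hx : Eis x) (hy : Eis y) : Eis (x + y) := by
  obtain ⟨a, b, rfl⟩ := hx
  obtain ⟨c, d, rfl⟩ := hy
  exact ⟨a + c, b + d, by push_cast; ring⟩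

lemma Eis.neg {x : ℂ} (hx : Eis x) : Eis (-x) := by
  obtain ⟨a, b, rfl⟩ := hx
  exact ⟨-a, -b, by push_cast; ring⟩

lemma Eis.mul_w {x : ℂ} (hx : Eis x) : Eis (w * x) := by
  obtain ⟨a, b, rfl⟩ := hx
  exact ⟨-b, a + b, by push_cast; linear_combination (b : ℂ) * w_sq⟩

lemma Eis.mul_w_inv {x : ℂ} (hx : Eis x) : Eis (w⁻¹ * x) := by
  obtain ⟨a, b, rfl⟩ := hx
  refine ⟨a + b, -a, ?_⟩
  rw [w_inv, w_conj]
  push_cast
  linear_combination -(b : ℂ) * w_sq

lemma Eis.zpow {x : ℂ} (hx : Eis x) (k : ℤ) : Eis (w ^ k * x) := by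
  induction k using Int.induction_on with
  | zero => simpa using hx
  | succ i ih =>
    rw [zpow_add_one₀ w_ne, mul_comm (w ^ (i : ℤ)) w, mul_assoc]
    exact ih.mul_w
  | pred i ih =>
    rw [zpow_sub_one₀ w_ne, mul_comm (w ^ (-(i : ℤ))) w⁻¹, mul_assoc]
    exact ih.mul_w_inv

lemma Eis.norm {x : ℂ} (hx : Eis x) : ∃ n : ℕ, Complex.normSq x = n := by
  obtain ⟨a, b, rfl⟩ := hx
  have h0 : (0 : ℤ) ≤ a ^ 2 + a * b + b ^ 2 := by nlinarith [sq_nonneg (a + b), sq_nonneg a, sq_nonneg b]
  refine ⟨(a ^ 2 + a * b + b ^ 2).toNat, ?_⟩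
  have h1 : (((a ^ 2 + a * b + b ^ 2).toNat : ℕ) : ℝ) = ((a ^ 2 + a * b + b ^ 2 : ℤ) : ℝ) := by
    exact_mod_cast congrArg (Int.cast : ℤ → ℝ) (Int.toNat_of_nonneg h0)
  rw [h1, Complex.normSq_apply]
  simp only [w, Complex.add_re, Complex.add_im, Complex.mul_re, Complex.mul_im, Complex.intCast_re,
    Complex.intCast_im]
  push_cast
  nlinarith [sqrt3]

/-! ### The core argument -/

section core

variable {A : Type*} [Group A] (d : A → ℤ) (D : A → ℂ)
  (hd : ∀ g h, d (g * h) = d g + d h)
  (hD : ∀ g h, D (g * h) = D g + w ^ d g * D h)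

include hd in
lemma d_one : d 1 = 0 := by
  have := hd 1 1
  rw [mul_one] at this
  omega

include hd in
lemma d_inv (g : A) : d g⁻¹ = -d g := by
  have := hd g g⁻¹
  rw [mul_inv_cancel, d_one d hd] at this
  omega

include hd in
lemma d_pow (g : A) (n : ℕ) : d (g ^ n) = n * d g := by
  induction n with
  | zero => simpa using d_one d hd
  | succ n ih => rw [pow_succ, hd, ih]; push_cast; ring

include hd hD in
lemma D_one : D 1 = 0 := by
  have := hD 1 1
  rw [mul_one, d_one d hd, zpow_zero, one_mul] at this
  linear_combination -this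

include hd hD in
lemma D_inv (g : A) : D g⁻¹ = -(w ^ (-d g) * D g) := by
  have h := hD g⁻¹ g
  rw [inv_mul_cancel, D_one d D hd hD, d_inv d hd] at h
  linear_combination -h

include hd in
/-- automorphisms acting trivially on the abelianisation -/
lemma core_plus (φ : A ≃* A) (hφ : ∀ g, d (φ g) = d g) (s0 : A) (hs0 : d s0 = 1) :
    Infinite (Quot (TwistedConj φ)) := by
  apply infinite_quot _ (fun x => (d x : ℝ))
  · rintro x y ⟨g, rfl⟩
    rw [hd, hd, d_inv d hd, hφ]
    congr 1
    ring
  · intro K
    obtain ⟨n, hn⟩ := exists_nat_gt K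
    refine ⟨s0 ^ n, ?_⟩
    rw [d_pow d hd, hs0]
    push_cast
    linarith

include hd hD in
/-- automorphisms acting by `-1` on the abelianisation -/
lemma core_minus (φ : A ≃* A) (hφ : ∀ g, d (φ g) = -d g) (s0 : A) (hs0 : d s0 = 1)
    (g0 : A) (hg0 : d g0 = 0) (hDg0 : D g0 = 1) (hE : ∀ g, ∃ n : ℕ, Complex.normSq (D g) = n)
    (α β : ℂ) (hαβ : ∀ g, conj (D (φ g)) = α * D g + β * (1 - w ^ d g)) :
    Infinite (Quot (TwistedConj φ)) := by
  -- `|α| = 1`
  have hα : α * conj α = 1 := by
    have h1 : conj (D (φ g0)) = α := by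
      rw [hαβ, hg0, hDg0]; simp
    obtain ⟨n1, hn1⟩ := hE (φ g0)
    have h2 : Complex.normSq α = n1 := by
      rw [← h1, Complex.normSq_conj, hn1]
    have h3 : d (φ.symm g0) = 0 := by
      have := hφ (φ.symm g0)
      rw [MulEquiv.apply_symm_apply, hg0] at this
      omega
    have h4 := hαβ (φ.symm g0)
    rw [MulEquiv.apply_symm_apply, hDg0, h3] at h4
    simp only [map_one, zpow_zero, sub_self, mul_zero, add_zero] at h4
    obtain ⟨n2, hn2⟩ := hE (φ.symm g0)
    have h5 : (n1 : ℝ) * n2 = 1 := by
      rw [← h2, ← hn2, ← Complex.normSq_mul, ← h4]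
      simp
    have h6 : n1 * n2 = 1 := by exact_mod_cast h5
    have h7 : n1 = 1 := Nat.eq_one_of_mul_eq_one_right h6
    rw [Complex.mul_conj, h2, h7]
    simp
  -- the invariant
  set T : A → ℂ := fun x => w ^ d x * conj α * conj (D x + w ^ d x * conj β) +
    (D x + w ^ d x * conj β) with hT
  apply infinite_quot _ (fun x => ‖T x‖)
  · rintro x y ⟨g, rfl⟩
    have h1 : d (g * x * (φ g)⁻¹) = d x + 2 * d g := by
      rw [hd, hd, d_inv d hd, hφ]; ring
    have h2 : D (g * x * (φ g)⁻¹) = D g + w ^ d g * D x -
        (w ^ d g) ^ 2 * w ^ d x * D (φ g) := by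
      rw [hD, hD, hd, D_inv d D hd hD, hφ, neg_neg, zpow_add₀ w_ne]
      ring
    have h3 : D (φ g) = conj α * conj (D g) + conj β * (1 - conj (w ^ d g)) := by
      have := congrArg conj (hαβ g)
      simpa using this
    have h4 : w ^ (d x + 2 * d g) = w ^ d x * (w ^ d g) ^ 2 := by
      rw [zpow_add₀ w_ne, mul_comm 2, zpow_mul, zpow_ofNat]
    have hu := w_zpow_conj (d g)
    have hv := w_zpow_conj (d x)
    have key : T (g * x * (φ g)⁻¹) = w ^ d g * T x := by
      simp only [hT]
      rw [h1, h4, h2, h3]
      simp only [map_add, map_mul, map_sub, map_pow, Complex.conj_conj, map_one]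
      set u := w ^ d g
      set v := w ^ d x
      set cu := conj u
      set cv := conj v
      set ca := conj α
      set cb := conj β
      linear_combination (-(D g)) * hα + (-(D g * α * ca)) * hv +
        (-(D g * α * ca * v * cv * (u * cu + 1)) + v * u * ca * conj (D x) +
          u * v * cv * ca * β * (u * cu + 1) + u * v * cb) * hu
    rw [key, norm_mul, w_zpow_norm, one_mul]
  · -- an element in the kernel with nonzero displacement
    obtain ⟨h0, hh0, hh1⟩ : ∃ h0 : A, d h0 = 0 ∧ conj α * conj (D h0) + D h0 ≠ 0 := by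
      by_cases hc : conj α + 1 = 0
      · refine ⟨s0 * g0 * s0⁻¹, ?_, ?_⟩
        · rw [hd, hd, d_inv d hd, hg0]; ring
        · have h1 : D (s0 * g0 * s0⁻¹) = w := by
            rw [hD, hD, D_inv d D hd hD, hd, hs0, hg0, hDg0]
            simp [w_ne]
          rw [h1]
          intro h2
          apply w_sub_conj
          linear_combination h2 - conj w * hc
      · refine ⟨g0, hg0, ?_⟩
        rw [hDg0]
        simpa using hc
    have hpow : ∀ n : ℕ, D (h0 ^ n) = n * D h0 := by
      intro n
      induction n with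
      | zero => simpa using D_one d D hd hD
      | succ n ih =>
        rw [pow_succ, hD, ih, d_pow d hd, hh0]
        push_cast
        simp
        ring
    have hTn : ∀ n : ℕ, T (h0 ^ n) = n * (conj α * conj (D h0) + D h0) +
        (conj α * β + conj β) := by
      intro n
      simp only [hT]
      rw [hpow, d_pow d hd, hh0]
      simp
      ring
    intro K
    set p := conj α * conj (D h0) + D h0 with hp
    set e := conj α * β + conj β with he
    have hp0 : 0 < ‖p‖ := norm_pos_iff.2 hh1
    obtain ⟨n, hn⟩ := exists_nat_gt ((K + ‖e‖) / ‖p‖)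
    refine ⟨h0 ^ n, ?_⟩
    rw [hTn]
    have h1 : ‖(n : ℂ) * p‖ ≤ ‖(n : ℂ) * p + e‖ + ‖e‖ := by
      have := norm_sub_le ((n : ℂ) * p + e) e
      simpa using this
    rw [norm_mul, Complex.norm_natCast] at h1
    rw [div_lt_iff₀ hp0] at hn
    linarith

end core

/-! ### The target group -/

/-- the group of the similarities `z ↦ w ^ k z + v`, with `k` remembered as an integer -/
@[ext]
structure Aff where
  /-- the exponent -/
  k : ℤ
  /-- the translation part -/
  v : ℂ

namespace Aff

noncomputable instance : Mul Aff := ⟨fun x y => ⟨x.k + y.k, x.v + w ^ x.k * y.v⟩⟩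
noncomputable instance : One Aff := ⟨⟨0, 0⟩⟩
noncomputable instance : Inv Aff := ⟨fun x => ⟨-x.k, -(w ^ (-x.k) * x.v)⟩⟩

@[simp] lemma mul_k (x y : Aff) : (x * y).k = x.k + y.k := rfl
@[simp] lemma mul_v (x y : Aff) : (x * y).v = x.v + w ^ x.k * y.v := rfl
@[simp] lemma one_k : (1 : Aff).k = 0 := rfl
@[simp] lemma one_v : (1 : Aff).v = 0 := rfl
@[simp] lemma inv_k (x : Aff) : (x⁻¹).k = -x.k := rfl
@[simp] lemma inv_v (x : Aff) : (x⁻¹).v = -(w ^ (-x.k) * x.v) := rfl

noncomputable instance : Group Aff := Group.ofLeftAxioms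
  (by
    intro x y z
    ext
    · simp only [mul_k]; ring
    · simp only [mul_v, mul_k]
      rw [zpow_add₀ w_ne]
      ring)
  (by
    intro x
    ext <;> simp)
  (by
    intro x
    ext <;> simp)

end Aff

lemma alt_k (n : ℕ) (u v : Aff) (hu : u.k = 1) (hv : v.k = 1) : (alt n u v).k = n := by
  induction n generalizing u v with
  | zero => simp [alt]
  | succ n ih => simp only [alt, Aff.mul_k, ih v u hv hu, hu]; push_cast; ring

/-! ### Artin groups -/

section artin

variable {S : Type*} (M : CoxeterMatrix S)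

/-- the generators -/
def gen (s : S) : ArtinGroup M := PresentedGroup.of s

lemma artin_rel (s t : S) :
    alt (M s t) (gen M s) (gen M t) = alt (M s t) (gen M t) (gen M s) := by
  have h : PresentedGroup.mk (artinRels M) (alt (M s t) (FreeGroup.of s) (FreeGroup.of t) *
    (alt (M s t) (FreeGroup.of t) (FreeGroup.of s))⁻¹) = 1 :=
    PresentedGroup.one_of_mem ⟨s, t, rfl⟩
  rw [map_mul, map_inv, mul_inv_eq_one, map_alt, map_alt] at h
  exact h

lemma exists_hom (b : S → ℂ) (hb : ∀ s t, (nonThreeGraph M).Adj s t → b s = b t) :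
    ∃ f : ArtinGroup M →* Aff, ∀ s, f (gen M s) = ⟨1, b s⟩ := by
  have h : ∀ r ∈ artinRels M, FreeGroup.lift (fun s => (⟨1, b s⟩ : Aff)) r = 1 := by
    rintro r ⟨s, t, rfl⟩
    rw [map_mul, map_inv, mul_inv_eq_one, map_alt, map_alt, FreeGroup.lift_apply_of,
      FreeGroup.lift_apply_of]
    ext
    · rw [alt_k _ _ _ rfl rfl, alt_k _ _ _ rfl rfl]
    · have h1 := crossed_alt (G := Aff) (fun x => x.v) (fun x => w ^ x.k) (fun g h => rfl) w
        (M s t) ⟨1, b s⟩ ⟨1, b t⟩ (by simp) (by simp)
      simp only at h1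
      have h2 : (b s - b t) * (1 - (-w) ^ M s t) = 0 := by
        by_cases h3 : 3 ∣ M s t
        · rw [neg_w_pow' h3]; ring
        · by_cases hst : s = t
          · rw [hst]; ring
          · rw [hb s t ⟨hst, fun h0 => h3 (by rw [h0]; exact dvd_zero 3), h3⟩]; ring
      rw [h2] at h1
      have h4 := (mul_eq_zero.1 h1).resolve_left one_add_w
      exact sub_eq_zero.1 h4
  exact ⟨PresentedGroup.toGroup h, fun s => PresentedGroup.toGroup.of h⟩

lemma crossed_ext (D1 D2 l : ArtinGroup M → ℂ) (hl : l 1 ≠ 0)
    (h1 : ∀ g h, D1 (g * h) = D1 g + l g * D1 h) (h2 : ∀ g h, D2 (g * h) = D2 g + l g * D2 h)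
    (h : ∀ s, D1 (gen M s) = D2 (gen M s)) (g : ArtinGroup M) : D1 g = D2 g := by
  have one1 : D1 1 = 0 := by
    have := h1 1 1
    rw [mul_one] at this
    have h3 : l 1 * D1 1 = 0 := by linear_combination -this
    exact (mul_eq_zero.1 h3).resolve_left hl
  have one2 : D2 1 = 0 := by
    have := h2 1 1
    rw [mul_one] at this
    have h3 : l 1 * D2 1 = 0 := by linear_combination -this
    exact (mul_eq_zero.1 h3).resolve_left hl
  let H : Subgroup (ArtinGroup M) :=
    { carrier := {g | D1 g = D2 g}
      one_mem' := by simp only [Set.mem_ofPred_eq, one1, one2]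
      mul_mem' := by
        intro a b ha hb
        simp only [Set.mem_ofPred_eq] at ha hb ⊢
        rw [h1, h2, ha, hb]
      inv_mem' := by
        intro a ha
        simp only [Set.mem_ofPred_eq] at ha ⊢
        have e1 := h1 a⁻¹ a
        have e2 := h2 a⁻¹ a
        rw [inv_mul_cancel, one1] at e1
        rw [inv_mul_cancel, one2] at e2
        rw [ha] at e1
        linear_combination e2 - e1 }
  exact PresentedGroup.generated_by (artinRels M) H h g

/-- values of an additive function on odd-adjacent generators -/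
lemma odd_eq (D : ArtinGroup M → ℂ) (hD : ∀ g h, D (g * h) = D g + D h) (hodd : (oddGraph M).Connected)
    (s t : S) : D (gen M s) = D (gen M t) := by
  have h1 : ∀ s t, (oddGraph M).Adj s t → D (gen M s) = D (gen M t) := by
    intro s t h
    have h2 := crossed_alt (G := ArtinGroup M) D (fun _ => 1) (by simpa using hD) 1
      (M s t) (gen M s) (gen M t) rfl rfl
    rw [artin_rel, sub_self, mul_zero, h.2.neg_one_pow] at h2
    have h3 : D (gen M s) - D (gen M t) = 0 := by linear_combination (-1 / 2 : ℂ) * h2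
    exact sub_eq_zero.1 h3
  obtain ⟨p⟩ := hodd.preconnected s t
  induction p with
  | nil => rfl
  | cons h p ih => exact (h1 _ _ h).trans ih

/-- values of a crossed homomorphism on generators in the same component -/
lemma three_eq (D l : ArtinGroup M → ℂ) (hD : ∀ g h, D (g * h) = D g + l g * D h)
    (hl : ∀ s, l (gen M s) = w) (s t : S)
    (hst : (nonThreeGraph M).connectedComponentMk s = (nonThreeGraph M).connectedComponentMk t) :
    D (gen M s) = D (gen M t) := by
  have h1 : ∀ s t, (nonThreeGraph M).Adj s t → D (gen M s) = D (gen M t) := by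
    intro s t h
    have h2 := crossed_alt (G := ArtinGroup M) D l hD w
      (M s t) (gen M s) (gen M t) (hl s) (hl t)
    rw [artin_rel, sub_self, mul_zero] at h2
    rcases mul_eq_zero.1 h2.symm with h3 | h3
    · exact sub_eq_zero.1 h3
    · exact absurd (neg_w_pow (sub_eq_zero.1 h3).symm) h.2.2
  obtain ⟨p⟩ := SimpleGraph.ConnectedComponent.exact hst
  induction p with
  | nil => rfl
  | cons h p ih => exact (h1 _ _ h).trans (ih (SimpleGraph.ConnectedComponent.sound ⟨p⟩))

end artin

/-- If the odd graph is connected and the graph of the finite labels not divisible by `3` has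
exactly two connected components, then the Artin group has property `R_∞`. -/
theorem result (S : Type) (M : CoxeterMatrix S) (hodd : (oddGraph M).Connected)
    (h3 : Nat.card (nonThreeGraph M).ConnectedComponent = 2) : HasRInf (ArtinGroup M) := by
  classical
  intro φ
  obtain ⟨c0, c1, hne, huniv⟩ := Nat.card_eq_two_iff.1 h3
  obtain ⟨s0, hs0⟩ := c0.exists_rep
  obtain ⟨t0, ht0⟩ := c1.exists_rep
  have hs0' : (nonThreeGraph M).connectedComponentMk s0 = c0 := hs0
  have ht0' : (nonThreeGraph M).connectedComponentMk t0 = c1 := ht0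
  set b : S → ℂ := fun s => if (nonThreeGraph M).connectedComponentMk s = c0 then 1 else 0 with hbdef
  have hb : ∀ s t, (nonThreeGraph M).Adj s t → b s = b t := by
    intro s t h
    have := SimpleGraph.ConnectedComponent.connectedComponentMk_eq_of_adj h
    simp only [hbdef, this]
  have hbs : b s0 = 1 := by simp only [hbdef, hs0', if_true]
  have hbt : b t0 = 0 := by simp only [hbdef, ht0', if_neg hne.symm]
  obtain ⟨f, hf⟩ := exists_hom M b hb
  set d : ArtinGroup M → ℤ := fun g => (f g).k with hd'
  set D : ArtinGroup M → ℂ := fun g => (f g).v with hD'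
  have hd : ∀ g h, d (g * h) = d g + d h := by
    intro g h
    simp only [hd', map_mul, Aff.mul_k]
  have hD : ∀ g h, D (g * h) = D g + w ^ d g * D h := by
    intro g h
    simp only [hD', hd', map_mul, Aff.mul_v]
  have hds : ∀ s, d (gen M s) = 1 := by
    intro s
    simp only [hd', hf]
  have hDs : ∀ s, D (gen M s) = b s := by
    intro s
    simp only [hD', hf]
  -- the action on the abelianisation
  set e : ℤ := d (φ (gen M s0)) with he
  have hφe : ∀ g, d (φ g) = e * d g := by
    intro g
    have h1 := crossed_ext M (fun g => (d (φ g) : ℂ)) (fun g => ((e * d g : ℤ) : ℂ)) (fun _ => 1)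
      one_ne_zero (by intro g h; simp only [map_mul, hd]; push_cast; ring)
      (by intro g h; simp only [hd]; push_cast; ring)
      (by
        intro s
        have h2 := odd_eq M (fun g => (d (φ g) : ℂ))
          (by intro g h; simp only [map_mul, hd]; push_cast; ring) hodd s s0
        rw [h2, hds, mul_one]) g
    exact_mod_cast h1
  have he1 : e = 1 ∨ e = -1 := by
    have h1 := hφe (φ.symm (gen M s0))
    rw [MulEquiv.apply_symm_apply, hds] at h1
    exact Int.isUnit_iff.1 (IsUnit.of_mul_eq_one _ h1.symm)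
  rcases he1 with he1 | he1
  · exact core_plus d hd φ (fun g => by rw [hφe, he1, one_mul]) (gen M s0) (hds s0)
  · have hφ : ∀ g, d (φ g) = -d g := fun g => by rw [hφe, he1]; ring
    -- integrality
    have hE : ∀ g, ∃ n : ℕ, Complex.normSq (D g) = n := by
      have hEis : ∀ g, Eis (D g) := by
        let H : Subgroup (ArtinGroup M) :=
          { carrier := {g | Eis (D g)}
            one_mem' := by
              simp only [Set.mem_ofPred_eq, D_one d D hd hD]
              exact ⟨0, 0, by simp⟩
            mul_mem' := by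
              intro x y hx hy
              simp only [Set.mem_ofPred_eq] at hx hy ⊢
              rw [hD]
              exact hx.add (hy.zpow _)
            inv_mem' := by
              intro x hx
              simp only [Set.mem_ofPred_eq] at hx ⊢
              rw [D_inv d D hd hD]
              exact (hx.zpow _).neg }
        intro g
        refine PresentedGroup.generated_by (artinRels M) H ?_ g
        intro s
        show Eis (D (gen M s))
        rw [hDs]
        simp only [hbdef]
        split_ifs
        · exact ⟨1, 0, by simp⟩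
        · exact ⟨0, 0, by simp⟩
      exact fun g => (hEis g).norm
    -- the crossed homomorphism conj ∘ D ∘ φ
    set D' : ArtinGroup M → ℂ := fun g => conj (D (φ g)) with hD'def
    have hDc : ∀ g h, D' (g * h) = D' g + w ^ d g * D' h := by
      intro g h
      simp only [hD'def, map_mul, hD, map_add, hφ]
      rw [map_zpow₀, ← w_inv, inv_zpow, zpow_neg, inv_inv]
    set q := D' (gen M t0) with hq
    set p := D' (gen M s0) with hp
    set β := q / (1 - w) with hβ
    have hβ1 : β * (1 - w) = q := div_mul_cancel₀ _ one_sub_w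
    refine core_minus d D hd hD φ hφ (gen M s0) (hds s0) (gen M s0 * (gen M t0)⁻¹) ?_ ?_ hE
      (p - q) β ?_
    · rw [hd, d_inv d hd, hds, hds]; ring
    · rw [hD, D_inv d D hd hD, hDs, hDs, hbs, hbt]; simp
    · intro g
      refine crossed_ext M D' (fun g => (p - q) * D g + β * (1 - w ^ d g)) (fun g => w ^ d g)
        (zpow_ne_zero _ w_ne) hDc ?_ ?_ g
      · intro g h
        simp only [hD, hd]
        rw [zpow_add₀ w_ne]
        ring
      · intro s
        simp only [hDs, hds, zpow_one, hβ1]
        have hs : (nonThreeGraph M).connectedComponentMk s = c0 ∨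
            (nonThreeGraph M).connectedComponentMk s = c1 := by
          have := Set.mem_univ ((nonThreeGraph M).connectedComponentMk s)
          rw [← huniv] at this
          simpa using this
        have hlw : ∀ s, (fun g => w ^ d g) (gen M s) = w := by
          intro s
          simp only [hds, zpow_one]
        rcases hs with hs | hs
        · have h1 : D' (gen M s) = p := three_eq M D' (fun g => w ^ d g) hDc hlw s s0 (hs.trans hs0'.symm)
          rw [h1]
          simp only [hbdef, hs, if_true]
          ring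
        · have h1 : D' (gen M s) = q := three_eq M D' (fun g => w ^ d g) hDc hlw s t0 (hs.trans ht0'.symm)
          rw [h1]
          simp only [hbdef, hs, if_neg hne.symm]
          ring

end Pool.Agent.Results.MP_b326e6_al.ModThreeTwoComponents
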